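import Mathlib

/-!
The definitions used in the statements about the Hilbert function of general forms.
-/

namespace Pool.Agent.H21

open MvPolynomial

/-- The coefficient of `z ^ i` in `(1 - z^d)^u / (1 - z)^n`. -/
def serCoeff (n d u i : ℕ) : ℤ :=
  ∑ k ∈ Finset.range (u + 1),
    (-1 : ℤ) ^ k * (u.choose k : ℤ) *
      (if d * k ≤ i then ((n - 1 + i - d * k).choose (n - 1) : ℤ) else 0)

open scoped Classical in
/-- The coefficient of `z ^ i` in the truncated series `[(1 - z^d)^u / (1 - z)^n]_+`: it is
replaced by `0` from the first negative coefficient onward. -/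
noncomputable def truncCoeff (n d u i : ℕ) : ℤ :=
  if ∀ m ≤ i, 0 ≤ serCoeff n d u m then serCoeff n d u i else 0

/-- The span `S_e V` of the products of a form of degree `e` with an element of `V`. -/
noncomputable def prodSpan {K : Type*} [Field K] {n : ℕ} (e : ℕ)
    (V : Submodule K (MvPolynomial (Fin n) K)) : Submodule K (MvPolynomial (Fin n) K) :=
  Submodule.span K (Set.image2 (· * ·)
    ((homogeneousSubmodule (Fin n) K e : Submodule K (MvPolynomial (Fin n) K)) :
      Set (MvPolynomial (Fin n) K)) (V : Set (MvPolynomial (Fin n) K)))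

/-- Fröberg's formula in degree `j + d` for `u` forms of degree `d` in `n` variables over `K`:
the maximum of `dim S_j V` over `u`-dimensional spaces `V` of forms of degree `d` equals
`dim S_{j+d} - c_{j+d}`. -/
def FrobergAt (K : Type) [Field K] (n d u j : ℕ) : Prop :=
  (∀ V : Submodule K (MvPolynomial (Fin n) K), V ≤ homogeneousSubmodule (Fin n) K d →
    Module.finrank K V = u →
    (Module.finrank K (prodSpan j V) : ℤ) ≤
      (Module.finrank K (homogeneousSubmodule (Fin n) K (j + d)) : ℤ) -
        truncCoeff n d u (j + d)) ∧
  (∃ V : Submodule K (MvPolynomial (Fin n) K), V ≤ homogeneousSubmodule (Fin n) K d ∧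
    Module.finrank K V = u ∧
    (Module.finrank K (prodSpan j V) : ℤ) =
      (Module.finrank K (homogeneousSubmodule (Fin n) K (j + d)) : ℤ) -
        truncCoeff n d u (j + d))

end Pool.Agent.H21
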