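import Pool.Agent.H94.LP7.H21.Defs

/-!
Fröberg's formula away from the thresholds, in all degrees, and the density statement.
-/

set_option linter.unusedSectionVars false

namespace Pool.Agent.H21

open scoped Classical
open MvPolynomial Filter Topology

/-- Fröberg's formula for `u` forms of degree `d` in `n` variables: in every degree and over every
field of characteristic `0` over which there are `u` independent forms of degree `d`. -/
def FrobergAll (n d u : ℕ) : Prop :=
  ∀ (K : Type) [Field K] [CharZero K],
    u ≤ Module.finrank K (homogeneousSubmodule (Fin n) K d) → ∀ j : ℕ, FrobergAt K n d u j

end Pool.Agent.H21
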